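import Mathlib
import Pool.Agent.Helper940.SelfSim
import Pool.Agent.Helper940.SelfSimBasic
import Pool.Agent.Helper940.MixedCore

set_option autoImplicit false

namespace Pool.Agent.Results.MP_f10b34_al.Degrees

open Filter Topology Pool.Agent.Helper940.SelfSim

/-- The degree of growth of a growth function `γ` is `α`: the upper limit of
`log γ(n) / log n`, taken in the extended real numbers, equals `α`. -/
def HasDegree (γ : ℕ → ℕ) (α : ℝ) : Prop :=
  limsup (fun n : ℕ => ((Real.log (γ n) / Real.log n : ℝ) : EReal)) atTop = (α : EReal)

/-- The set of all real numbers that occur as the degree of growth of the Schreier graph of a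
boundary point `ξ` for a finitely generated contracting self-similar group `G` acting on the words
over a finite alphabet `X`, with finite generating set `S`. -/
def degreeSet : Set ℝ :=
  {α | ∃ (X : Type) (G : Subgroup (Equiv.Perm (List X))) (S : Set (Equiv.Perm (List X)))
      (ξ : ℕ → X), Finite X ∧ SelfSimilar G ∧ Contracting G ∧ S.Finite ∧ Subgroup.closure S = G ∧
      HasDegree (growth S ξ) α}

theorem hasDegree_of_tendsto {γ : ℕ → ℕ} {α : ℝ}
    (h : Tendsto (fun n : ℕ => Real.log (γ n) / Real.log n) atTop (𝓝 α)) : HasDegree γ α := by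
  have h' : Tendsto (fun n : ℕ => ((Real.log (γ n) / Real.log n : ℝ) : EReal)) atTop
      (𝓝 (α : EReal)) := (continuous_coe_real_ereal.tendsto α).comp h
  exact h'.limsup_eq

theorem tendsto_of_bounded {γ : ℕ → ℕ} (M : ℕ) (h1 : ∀ n, 1 ≤ γ n) (hM : ∀ n, γ n ≤ M) :
    Tendsto (fun n : ℕ => Real.log (γ n) / Real.log n) atTop (𝓝 0) := by
  have hlog : Tendsto (fun n : ℕ => Real.log (n : ℝ)) atTop atTop :=
    Real.tendsto_log_atTop.comp tendsto_natCast_atTop_atTop
  have hup : Tendsto (fun n : ℕ => Real.log M / Real.log n) atTop (𝓝 0) :=
    tendsto_const_nhds.div_atTop hlog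
  refine tendsto_of_tendsto_of_tendsto_of_le_of_le' tendsto_const_nhds hup ?_ ?_
  · filter_upwards [eventually_ge_atTop 2] with n hn
    have hn' : (2 : ℝ) ≤ n := by exact_mod_cast hn
    exact div_nonneg (Real.log_nonneg (by exact_mod_cast h1 n)) (Real.log_nonneg (by linarith))
  · filter_upwards [eventually_ge_atTop 2] with n hn
    have hn' : (2 : ℝ) ≤ n := by exact_mod_cast hn
    have hpos : (0 : ℝ) < γ n := by exact_mod_cast h1 n
    exact div_le_div_of_nonneg_right (Real.log_le_log hpos (by exact_mod_cast hM n))
      (Real.log_nonneg (by linarith))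

theorem result : degreeSet = {0} ∪ Set.Ici 1 := by
  apply Set.Subset.antisymm
  · rintro α ⟨X, G, S, ξ, -, -, -, hS, -, hdeg⟩
    rcases ball_dichotomy hS ξ with ⟨N, hN⟩ | h
    · left
      have hb : ∀ n, growth S ξ n ≤ growth S ξ N :=
        fun n => Set.ncard_le_ncard (hN n) (ball_finite hS ξ N)
      have h0 := hasDegree_of_tendsto
        (tendsto_of_bounded (growth S ξ N) (fun n => growth_pos hS ξ n) hb)
      have : ((0 : ℝ) : EReal) = (α : EReal) := h0.symm.trans hdeg
      exact (EReal.coe_eq_coe_iff.1 this).symm
    · right
      have h1 : (1 : EReal) ≤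
          limsup (fun n : ℕ => ((Real.log (growth S ξ n) / Real.log n : ℝ) : EReal)) atTop := by
        have : ∀ᶠ n : ℕ in atTop,
            (1 : EReal) ≤ ((Real.log (growth S ξ n) / Real.log n : ℝ) : EReal) := by
          filter_upwards [eventually_ge_atTop 2] with n hn
          have hg := h n
          have hn' : (2 : ℝ) ≤ n := by exact_mod_cast hn
          have hlog : 0 < Real.log n := Real.log_pos (by linarith)
          have : (1 : ℝ) ≤ Real.log (growth S ξ n) / Real.log n := by
            rw [le_div_iff₀ hlog, one_mul]
            have hg' : ((n + 1 : ℕ) : ℝ) ≤ growth S ξ n := by exact_mod_cast hg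
            push_cast at hg'
            exact Real.log_le_log (by linarith) (by linarith)
          exact_mod_cast this
        calc (1 : EReal) = limsup (fun _ : ℕ => (1 : EReal)) atTop := (limsup_const _).symm
          _ ≤ _ := limsup_le_limsup this
      unfold HasDegree at hdeg
      rw [hdeg] at h1
      exact_mod_cast h1
  · rintro α (hα | hα)
    · have hα' : α = 0 := hα
      subst hα'
      have hcl : Subgroup.closure (∅ : Set (Equiv.Perm (List (Fin 2)))) = ⊥ :=
        Subgroup.closure_empty
      refine ⟨Fin 2, ⊥, ∅, fun _ => 0, inferInstance, ?_, ?_, Set.finite_empty, hcl, ?_⟩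
      · intro g hg x
        rw [Subgroup.mem_bot] at hg
        subst hg
        exact ⟨x, 1, Subgroup.one_mem _, fun w => rfl⟩
      · refine ⟨{1}, Set.finite_singleton 1, by simp, fun g hg => ⟨0, fun v _ => ?_⟩⟩
        rw [Subgroup.mem_bot] at hg
        subst hg
        exact ⟨1, rfl, fun w => rfl⟩
      · have hball : ∀ n, ball (∅ : Set (Equiv.Perm (List (Fin 2)))) (fun _ => 0) n ⊆
            {fun _ => 0} := by
          intro n
          induction n with
          | zero =>
            rintro η ⟨p, hp⟩
            have h0 : p.length = 0 := by omega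
            exact (SimpleGraph.Walk.eq_of_length_eq_zero h0).symm
          | succ n ih =>
            intro ζ hζ
            rcases ball_succ _ _ n hζ with h | ⟨η, -, hadj⟩
            · exact ih h
            · rw [schreier, SimpleGraph.fromRel_adj] at hadj
              simp at hadj
        refine hasDegree_of_tendsto (tendsto_of_bounded 1
          (fun n => growth_pos Set.finite_empty _ n) (fun n => ?_))
        have := Set.ncard_le_ncard (hball n) (Set.finite_singleton _)
        rwa [Set.ncard_singleton] at this
    · obtain ⟨k, ξ, h⟩ := Pool.Agent.Helper940.MixedTree.core α hα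
      exact ⟨Pool.Agent.Helper940.MixedTree.Al k, Pool.Agent.Helper940.MixedTree.G k,
        Pool.Agent.Helper940.MixedTree.S k, ξ, inferInstance,
        Pool.Agent.Helper940.MixedTree.selfSimilar_G,
        Pool.Agent.Helper940.MixedTree.contracting_G,
        Pool.Agent.Helper940.MixedTree.S_finite, rfl, hasDegree_of_tendsto h⟩

end Pool.Agent.Results.MP_f10b34_al.Degrees
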